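import Pool.Agent.Helper73.RT.Defs

/-!
# Project RT (MP_f3997c_co), module E1: rounding of weights
-/

set_option autoImplicit false

open Finset

namespace Pool.Agent.Helper73.RT

theorem h84_fibres {P : Type} [Fintype P] [DecidableEq P] (n : ℕ) (m : P → ℕ)
    (hm : ∑ i, m i = n) :
    ∃ lab : Fin n → P, ∀ i, (univ.filter fun v => lab v = i).card = m i := by
  have hc : Fintype.card (Fin n) = Fintype.card (Σ i : P, Fin (m i)) := by
    simp [hm]
  let e : Fin n ≃ (Σ i : P, Fin (m i)) := Fintype.equivOfCardEq hc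
  refine ⟨fun v => (e v).1, fun i => ?_⟩
  have h : (univ : Finset (Fin (m i))).card = (univ.filter fun v => (e v).1 = i).card := by
    refine Finset.card_bij (fun j _ => e.symm ⟨i, j⟩) ?_ ?_ ?_
    · intro j _
      rw [mem_filter]
      refine ⟨mem_univ _, ?_⟩
      rw [Equiv.apply_symm_apply]
    · intro a _ b _ hab
      have h2 : (⟨i, a⟩ : Σ i : P, Fin (m i)) = ⟨i, b⟩ := e.symm.injective hab
      exact eq_of_heq (Sigma.mk.inj h2).2
    · intro v hv
      rw [mem_filter] at hv
      obtain ⟨_, hv⟩ := hv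
      subst hv
      exact ⟨(e v).2, mem_univ _, by rw [Sigma.eta, Equiv.symm_apply_apply]⟩
  rw [← h]
  simp

/-- RT-E1. Rounding of weights. -/
theorem alloc {P : Type} [Fintype P] [DecidableEq P] (n : ℕ) (γ : P → ℝ) (h0 : ∀ i, 0 ≤ γ i)
    (h1 : ∑ i, γ i = 1) :
    ∃ lab : Fin n → P,
      (∀ i, n * γ i - 1 ≤ ((univ.filter fun v => lab v = i).card : ℝ)) ∧
      ∀ F : Finset P, ((univ.filter fun v => lab v ∈ F).card : ℝ) ≤
        n * ∑ i ∈ F, γ i + Fintype.card P := by
  have hne : Nonempty P := by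
    by_contra h
    rw [not_nonempty_iff] at h
    simp at h1
  obtain ⟨i0⟩ := hne
  set fl : P → ℕ := fun i => ⌊(n : ℝ) * γ i⌋₊ with hfl
  have hnn : ∀ i, 0 ≤ (n : ℝ) * γ i := fun i => mul_nonneg (Nat.cast_nonneg n) (h0 i)
  have hle : ∀ i, (fl i : ℝ) ≤ n * γ i := fun i => Nat.floor_le (hnn i)
  have hlt : ∀ i, (n : ℝ) * γ i < fl i + 1 := fun i => Nat.lt_floor_add_one _
  have hsum : ∑ i, (n : ℝ) * γ i = n := by rw [← mul_sum, h1, mul_one]
  have hs1 : ∑ i, fl i ≤ n := by
    have : ((∑ i, fl i : ℕ) : ℝ) ≤ n := by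
      push_cast
      calc ∑ i, (fl i : ℝ) ≤ ∑ i, (n : ℝ) * γ i := sum_le_sum fun i _ => hle i
        _ = n := hsum
    exact_mod_cast this
  obtain ⟨r, hr⟩ := Nat.exists_eq_add_of_le hs1
  have hrP : (r : ℝ) ≤ Fintype.card P := by
    have h2 : (n : ℝ) ≤ ∑ i, ((fl i : ℝ) + 1) := by
      rw [← hsum]
      exact sum_le_sum fun i _ => (hlt i).le
    rw [sum_add_distrib] at h2
    simp only [sum_const, card_univ, nsmul_eq_mul, mul_one] at h2
    have h3 : (n : ℝ) = ∑ i, (fl i : ℝ) + r := by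
      exact_mod_cast hr
    linarith
  set m : P → ℕ := fun i => fl i + if i = i0 then r else 0 with hm
  have hmsum : ∑ i, m i = n := by
    simp only [hm, sum_add_distrib]
    rw [Finset.sum_ite_eq' univ i0 (fun _ => r)]
    simp [hr]
  obtain ⟨lab, hlab⟩ := h84_fibres n m hmsum
  refine ⟨lab, fun i => ?_, fun F => ?_⟩
  · rw [hlab i]
    have h4 : (fl i : ℝ) ≤ (m i : ℝ) := by
      have : fl i ≤ m i := Nat.le_add_right _ _
      exact_mod_cast this
    have := hlt i
    linarith
  · have h5 : (univ.filter fun v => lab v ∈ F).card = ∑ i ∈ F, m i := by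
      rw [Finset.card_eq_sum_card_fiberwise (f := lab) (t := F)]
      · refine sum_congr rfl fun i hi => ?_
        rw [← hlab i]
        congr 1
        ext v
        simp only [mem_filter, mem_univ, true_and]
        constructor
        · rintro ⟨_, h⟩
          exact h
        · intro h
          exact ⟨h ▸ hi, h⟩
      · intro v hv
        simpa using hv
    rw [h5]
    have h6 : ((∑ i ∈ F, m i : ℕ) : ℝ) ≤ ∑ i ∈ F, (n : ℝ) * γ i + r := by
      push_cast
      have h7 : ∑ i ∈ F, ((if i = i0 then r else 0 : ℕ) : ℝ) ≤ r := by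
        rw [← Nat.cast_sum]
        rw [Finset.sum_ite_eq' F i0 (fun _ => r)]
        split_ifs <;> simp
      have h8 : ∑ i ∈ F, (m i : ℝ)
          = ∑ i ∈ F, (fl i : ℝ) + ∑ i ∈ F, ((if i = i0 then r else 0 : ℕ) : ℝ) := by
        rw [← sum_add_distrib]
        refine sum_congr rfl fun i _ => ?_
        simp only [hm]
        push_cast
        rfl
      rw [h8]
      have h9 : ∑ i ∈ F, (fl i : ℝ) ≤ ∑ i ∈ F, (n : ℝ) * γ i := sum_le_sum fun i _ => hle i
      linarith
    rw [mul_sum]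
    linarith

end Pool.Agent.Helper73.RT
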